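import Mathlib

/-!
# MP_b01501_co, Q1 disproved

In the (locally finite) lamplighter group `(⊕_Q Z/3) ⋊ Q`, `Q = ⊕ Z/2`, there are `A`, `B` with
`d(A) ≥ 2/3`, `d(B) = 1` such that the complement of `A B⁻¹` is syndetic.
-/

namespace Pool.Agent.Results.MP_b01501_co.PiecewiseSyndetic

open scoped Classical

section defs

variable {G : Type} [Group G]

/-- the finite nonempty set `K` is `(H, ε)`-invariant: `|hK △ K| < ε |K|` for all `h ∈ H`. -/
def IsInvariant (H : Finset G) (ε : ℝ) (K : Finset G) : Prop :=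
  K.Nonempty ∧ ∀ h ∈ H, ((symmDiff (K.image fun x => h * x) K).card : ℝ) < ε * K.card

/-- amenability, by Følner's condition -/
def IsAmenable (G : Type) [Group G] : Prop :=
  ∀ (H : Finset G) (ε : ℝ), 0 < ε → ∃ K : Finset G, IsInvariant H ε K

/-- the upper Banach density of `A` -/
noncomputable def density (A : Set G) : ℝ :=
  sSup {α : ℝ | ∀ (H : Finset G) (ε : ℝ), 0 < ε →
    ∃ K : Finset G, IsInvariant H ε K ∧ α * K.card ≤ ((K.filter fun x => x ∈ A).card : ℝ)}

/-- `A` is thick -/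
def IsThick (A : Set G) : Prop := ∀ H : Finset G, ∃ x : G, ∀ h ∈ H, h * x ∈ A

/-- `A` is piecewise `k`-syndetic -/
def IsPiecewiseSyndetic (k : ℕ) (A : Set G) : Prop :=
  ∃ F : Finset G, F.card ≤ k ∧ IsThick {g : G | ∃ f ∈ F, ∃ a ∈ A, g = f * a}

/-- the set `A B⁻¹` -/
def mulInv (A B : Set G) : Set G := {g : G | ∃ a ∈ A, ∃ b ∈ B, g = a * b⁻¹}

end defs

/-- translation by `q` for bitwise exclusive or -/
def xe (q : ℕ) : ℕ ≃ ℕ where
  toFun t := t ^^^ q
  invFun t := t ^^^ q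
  left_inv t := by simp
  right_inv t := by simp

/-- shift of a lamp configuration -/
def sh (q : ℕ) (f : ℕ →₀ ZMod 3) : ℕ →₀ ZMod 3 := f.equivMapDomain (xe q)

lemma sh_apply (q : ℕ) (f : ℕ →₀ ZMod 3) (t : ℕ) : sh q f t = f (t ^^^ q) := rfl

/-- elements of the lamplighter group -/
@[ext] structure L where
  /-- the lamps -/
  f : ℕ →₀ ZMod 3
  /-- the position -/
  q : ℕ

noncomputable instance : Mul L := ⟨fun a b => ⟨a.f + sh a.q b.f, a.q ^^^ b.q⟩⟩
noncomputable instance : One L := ⟨⟨0, 0⟩⟩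
noncomputable instance : Inv L := ⟨fun a => ⟨-sh a.q a.f, a.q⟩⟩

lemma mul_f (a b : L) (t : ℕ) : (a * b).f t = a.f t + b.f (t ^^^ a.q) := rfl
lemma mul_q (a b : L) : (a * b).q = a.q ^^^ b.q := rfl
lemma one_f (t : ℕ) : (1 : L).f t = 0 := rfl
lemma one_q : (1 : L).q = 0 := rfl
lemma inv_f (a : L) (t : ℕ) : (a⁻¹).f t = -a.f (t ^^^ a.q) := rfl
lemma inv_q (a : L) : (a⁻¹).q = a.q := rfl

lemma L.ext' {a b : L} (h1 : ∀ t, a.f t = b.f t) (h2 : a.q = b.q) : a = b :=
  L.ext (Finsupp.ext h1) h2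

noncomputable instance : Group L :=
  Group.ofLeftAxioms
    (by
      intro a b c
      apply L.ext'
      · intro t
        simp only [mul_f, mul_q, add_assoc, Nat.xor_assoc]
      · simp only [mul_q, Nat.xor_assoc])
    (by
      intro a
      apply L.ext'
      · intro t
        simp only [mul_f, one_f, one_q, Nat.xor_zero, zero_add]
      · simp only [mul_q, one_q, Nat.zero_xor])
    (by
      intro a
      apply L.ext'
      · intro t
        simp only [mul_f, inv_f, inv_q, one_f, neg_add_cancel]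
      · simp only [mul_q, inv_q, one_q, Nat.xor_self])

/-- the `n`-th finite subgroup -/
def SS (n : ℕ) : Set L := {a | a.q < 2 ^ n ∧ ∀ t, 2 ^ n ≤ t → a.f t = 0}

lemma xor_ge {n t q : ℕ} (ht : 2 ^ n ≤ t) (hq : q < 2 ^ n) : 2 ^ n ≤ t ^^^ q := by
  by_contra h
  push Not at h
  have h2 : (t ^^^ q) ^^^ q < 2 ^ n := Nat.xor_lt_two_pow h hq
  rw [Nat.xor_assoc, Nat.xor_self, Nat.xor_zero] at h2
  omega

lemma SS_mul {n : ℕ} {a b : L} (ha : a ∈ SS n) (hb : b ∈ SS n) : a * b ∈ SS n := by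
  refine ⟨?_, fun t ht => ?_⟩
  · rw [mul_q]; exact Nat.xor_lt_two_pow ha.1 hb.1
  · rw [mul_f, ha.2 t ht, hb.2 _ (xor_ge ht ha.1), add_zero]

lemma SS_inv {n : ℕ} {a : L} (ha : a ∈ SS n) : a⁻¹ ∈ SS n := by
  refine ⟨ha.1, fun t ht => ?_⟩
  rw [inv_f, ha.2 _ (xor_ge ht ha.1), neg_zero]

lemma SS_one (n : ℕ) : (1 : L) ∈ SS n := ⟨by rw [one_q]; positivity, fun t _ => one_f t⟩

lemma SS_finite (n : ℕ) : (SS n).Finite := by
  rw [← Set.finite_coe_iff]
  let φ : SS n → (Fin (2 ^ n) → ZMod 3) × Fin (2 ^ n) := fun a => (fun i => a.1.f i, ⟨a.1.q, a.2.1⟩)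
  apply Finite.of_injective φ
  rintro ⟨a, ha⟩ ⟨b, hb⟩ h
  simp only [φ, Prod.mk.injEq, Fin.mk.injEq] at h
  apply Subtype.ext
  apply L.ext'
  · intro t
    rcases Nat.lt_or_ge t (2 ^ n) with ht | ht
    · exact congrFun h.1 ⟨t, ht⟩
    · rw [ha.2 t ht, hb.2 t ht]
  · exact h.2

/-- the `n`-th finite subgroup, as a finset -/
noncomputable def S (n : ℕ) : Finset L := (SS_finite n).toFinset

lemma mem_S {n : ℕ} {a : L} : a ∈ S n ↔ a ∈ SS n := by simp [S]

lemma S_mono {m n : ℕ} (h : m ≤ n) {a : L} (ha : a ∈ S m) : a ∈ S n := by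
  rw [mem_S] at ha ⊢
  have hp : 2 ^ m ≤ 2 ^ n := Nat.pow_le_pow_right (by norm_num) h
  exact ⟨lt_of_lt_of_le ha.1 hp, fun t ht => ha.2 t (hp.trans ht)⟩

lemma exists_S (a : L) : ∃ n, a ∈ S n := by
  obtain ⟨N, hN⟩ : ∃ N, ∀ t ∈ a.f.support, t < N := by
    refine ⟨a.f.support.sup id + 1, fun t ht => ?_⟩
    have := Finset.le_sup (f := id) ht
    simp only [id] at this
    omega
  refine ⟨max N a.q, ?_⟩
  rw [mem_S]
  have h1 : max N a.q < 2 ^ (max N a.q) := Nat.lt_two_pow_self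
  refine ⟨by omega, fun t ht => ?_⟩
  by_contra h0
  have := hN t (Finsupp.mem_support_iff.2 h0)
  omega

lemma exists_S' (H : Finset L) : ∃ n, ∀ a ∈ H, a ∈ S n := by
  induction H using Finset.induction with
  | empty => exact ⟨0, by simp⟩
  | insert a H _ ih =>
    obtain ⟨n, hn⟩ := ih
    obtain ⟨m, hm⟩ := exists_S a
    refine ⟨max n m, fun x hx => ?_⟩
    rcases Finset.mem_insert.1 hx with rfl | hx
    · exact S_mono (le_max_right _ _) hm
    · exact S_mono (le_max_left _ _) (hn x hx)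

/-- right cosets of `S n` are invariant under left multiplication by elements of `S n` -/
lemma invariant (n : ℕ) (y : L) (H : Finset L) (hH : ∀ a ∈ H, a ∈ S n) (ε : ℝ) (hε : 0 < ε) :
    IsInvariant H ε ((S n).image fun s => s * y) := by
  have hne : ((S n).image fun s => s * y).Nonempty :=
    ⟨1 * y, Finset.mem_image.2 ⟨1, mem_S.2 (SS_one n), rfl⟩⟩
  refine ⟨hne, fun h hh => ?_⟩
  have e : (((S n).image fun s => s * y).image fun x => h * x) = (S n).image fun s => s * y := by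
    ext x
    simp only [Finset.mem_image]
    constructor
    · rintro ⟨_, ⟨s, hs, rfl⟩, rfl⟩
      exact ⟨h * s, mem_S.2 (SS_mul (mem_S.1 (hH h hh)) (mem_S.1 hs)), mul_assoc _ _ _⟩
    · rintro ⟨s, hs, rfl⟩
      refine ⟨h⁻¹ * s * y, ⟨h⁻¹ * s, mem_S.2 (SS_mul (SS_inv (mem_S.1 (hH h hh))) (mem_S.1 hs)),
        rfl⟩, by group⟩
  rw [e, symmDiff_self]
  have : (0 : ℝ) < (((S n).image fun s => s * y).card : ℝ) := by
    exact_mod_cast Finset.card_pos.2 hne
  simp only [Finset.bot_eq_empty, Finset.card_empty, Nat.cast_zero]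
  positivity

lemma amenable : IsAmenable L := by
  intro H ε hε
  obtain ⟨n, hn⟩ := exists_S' H
  exact ⟨_, invariant n 1 H hn ε hε⟩

lemma bddAbove (A : Set L) : BddAbove {α : ℝ | ∀ (H : Finset L) (ε : ℝ), 0 < ε →
    ∃ K : Finset L, IsInvariant H ε K ∧ α * K.card ≤ ((K.filter fun x => x ∈ A).card : ℝ)} := by
  refine ⟨1, fun α hα => ?_⟩
  obtain ⟨K, hK, h⟩ := hα ∅ 1 one_pos
  have h1 : ((K.filter fun x => x ∈ A).card : ℝ) ≤ K.card := by
    exact_mod_cast Finset.card_filter_le _ _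
  have h2 : (0 : ℝ) < K.card := by exact_mod_cast Finset.card_pos.2 hK.1
  have h3 : α * K.card ≤ 1 * K.card := by linarith
  exact le_of_mul_le_mul_right h3 h2

/-- positions of the blocks used by `B` -/
def InBlock (n q : ℕ) : Prop := q ^^^ 2 ^ (2 * n) < 2 ^ n

/-- the set `A` -/
def A : Set L := {g | g.f 0 ≠ 0 ∧ ∀ n, ¬ InBlock n g.q}

/-- the set `B` -/
def B : Set L := {g | ∃ n, InBlock n g.q ∧ ∀ t, 2 ^ n ≤ t → g.f t = 0}

lemma avoid {a b : L} (ha : a ∈ A) (hb : b ∈ B) : (a * b⁻¹).f 0 ≠ 0 := by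
  intro h
  set c := a * b⁻¹ with hc
  have e : a = c * b := by rw [hc]; group
  rw [e] at ha
  obtain ⟨h1, h2⟩ := ha
  obtain ⟨n, hn, hf⟩ := hb
  rw [mul_f, h, zero_add, Nat.zero_xor] at h1
  have hcq : c.q < 2 ^ n := by
    by_contra h3
    exact h1 (hf _ (not_lt.1 h3))
  apply h2 n
  unfold InBlock at hn ⊢
  rw [mul_q, Nat.xor_assoc]
  exact Nat.xor_lt_two_pow hcq hn

lemma not_pws : ∀ k : ℕ, k ≤ 1 → ¬ IsPiecewiseSyndetic k (mulInv A B) := by
  rintro k hk ⟨F, hF, hth⟩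
  rcases F.eq_empty_or_nonempty with rfl | ⟨f0, hf0⟩
  · obtain ⟨x, hx⟩ := hth {1}
    obtain ⟨f, hf, -⟩ := hx 1 (Finset.mem_singleton_self _)
    exact absurd hf (Finset.notMem_empty _)
  · have hF1 : ∀ f ∈ F, f = f0 := fun f hf =>
      Finset.card_le_one.1 (hF.trans hk) f hf f0 hf0
    obtain ⟨x, hx⟩ := hth ((Finset.univ : Finset (ZMod 3)).image fun i =>
      f0 * ⟨Finsupp.single 0 i, 0⟩)
    obtain ⟨f, hf, m, ⟨a, ha, b, hb, rfl⟩, he⟩ := hx (f0 * ⟨Finsupp.single 0 (-x.f 0), 0⟩)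
      (Finset.mem_image.2 ⟨_, Finset.mem_univ _, rfl⟩)
    rw [hF1 f hf, mul_assoc] at he
    have he' := mul_left_cancel he
    apply avoid ha hb
    rw [← he', mul_f]
    simp

lemma xor_big {n q u : ℕ} (m : ℕ) (hq : q < 2 ^ n) (h1 : n ≤ m) (hu : u.testBit m = true) :
    2 ^ m ≤ q ^^^ u := by
  apply Nat.ge_two_pow_of_testBit (i := m)
  rw [Nat.testBit_xor, hu, Nat.testBit_lt_two_pow
    (lt_of_lt_of_le hq (Nat.pow_le_pow_right (by norm_num) h1))]
  rfl

lemma outside (n k q : ℕ) (hq : q < 2 ^ n) : ¬ InBlock k (q ^^^ 2 ^ (2 * n + 1)) := by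
  unfold InBlock
  rw [not_lt, Nat.xor_assoc]
  rcases lt_or_gt_of_ne (show 2 * k ≠ 2 * n + 1 by omega) with h | h
  · have h1 : (2 ^ (2 * n + 1) ^^^ 2 ^ (2 * k)).testBit (2 * n + 1) = true := by
      rw [Nat.testBit_xor, Nat.testBit_two_pow_self, Nat.testBit_two_pow_of_ne (by omega)]
      rfl
    exact le_trans (Nat.pow_le_pow_right (by norm_num) (by omega))
      (xor_big (2 * n + 1) hq (by omega) h1)
  · have h1 : (2 ^ (2 * n + 1) ^^^ 2 ^ (2 * k)).testBit (2 * k) = true := by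
      rw [Nat.testBit_xor, Nat.testBit_two_pow_self, Nat.testBit_two_pow_of_ne (by omega)]
      rfl
    exact le_trans (Nat.pow_le_pow_right (by norm_num) (by omega))
      (xor_big (2 * k) hq (by omega) h1)

/-- lamp translation -/
noncomputable def del (i : ZMod 3) : L := ⟨Finsupp.single 0 i, 0⟩

lemma del_mem (i : ZMod 3) (n : ℕ) : del i ∈ S n := by
  rw [mem_S]
  refine ⟨by simp [del], fun t ht => ?_⟩
  have : t ≠ 0 := by
    have := Nat.pow_pos (n := n) (show 0 < 2 by norm_num)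
    omega
  simp [del, this.symm]

lemma fiber_card (n : ℕ) (i : ZMod 3) :
    ((S n).filter fun s => s.f 0 = i).card = ((S n).filter fun s => s.f 0 = 0).card := by
  apply Finset.card_bij' (fun s _ => del (-i) * s) (fun s _ => del i * s)
  · intro s hs
    rw [Finset.mem_filter] at hs ⊢
    refine ⟨mem_S.2 (SS_mul (mem_S.1 (del_mem _ n)) (mem_S.1 hs.1)), ?_⟩
    rw [mul_f]
    simp [del, hs.2]
  · intro s hs
    rw [Finset.mem_filter] at hs ⊢
    refine ⟨mem_S.2 (SS_mul (mem_S.1 (del_mem _ n)) (mem_S.1 hs.1)), ?_⟩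
    rw [mul_f]
    simp [del, hs.2]
  · intro s hs
    apply L.ext'
    · intro t
      simp [mul_f, del]
    · simp [mul_q, del]
  · intro s hs
    apply L.ext'
    · intro t
      simp [mul_f, del]
    · simp [mul_q, del]

lemma card_S (n : ℕ) : (S n).card = 3 * ((S n).filter fun s => s.f 0 = 0).card := by
  rw [Finset.card_eq_sum_card_fiberwise (f := fun s : L => s.f 0) (t := Finset.univ)
    (fun _ _ => Finset.mem_univ _)]
  rw [Finset.sum_congr rfl fun i _ => fiber_card n i]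
  simp

lemma density_A : 2 / 3 ≤ density A := by
  apply le_csSup (bddAbove A)
  intro H ε hε
  obtain ⟨n, hn⟩ := exists_S' H
  refine ⟨_, invariant n ⟨0, 2 ^ (2 * n + 1)⟩ H hn ε hε, ?_⟩
  have hinj : Function.Injective fun s : L => s * (⟨0, 2 ^ (2 * n + 1)⟩ : L) :=
    mul_left_injective _
  rw [Finset.card_image_of_injective _ hinj]
  have hsub : ((S n).filter fun s => ¬ s.f 0 = 0).image (fun s => s * ⟨0, 2 ^ (2 * n + 1)⟩) ⊆
      ((S n).image fun s => s * (⟨0, 2 ^ (2 * n + 1)⟩ : L)).filter fun x => x ∈ A := by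
    intro x hx
    obtain ⟨s, hs, rfl⟩ := Finset.mem_image.1 hx
    rw [Finset.mem_filter] at hs
    rw [Finset.mem_filter]
    refine ⟨Finset.mem_image.2 ⟨s, hs.1, rfl⟩, ?_, ?_⟩
    · rw [mul_f]
      simpa using hs.2
    · intro k
      exact outside n k s.q (mem_S.1 hs.1).1
  have h1 := Finset.card_le_card hsub
  rw [Finset.card_image_of_injective _ hinj] at h1
  have h2 := Finset.card_filter_add_card_filter_not (s := S n) (fun s : L => s.f 0 = 0)
  have h3 := card_S n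
  have h4 : 2 * (S n).card ≤ 3 * (((S n).image fun s =>
      s * (⟨0, 2 ^ (2 * n + 1)⟩ : L)).filter fun x => x ∈ A).card := by omega
  have h5 : (2 : ℝ) * (S n).card ≤ 3 * (((S n).image fun s =>
      s * (⟨0, 2 ^ (2 * n + 1)⟩ : L)).filter fun x => x ∈ A).card := by exact_mod_cast h4
  linarith

lemma density_B : 1 ≤ density B := by
  apply le_csSup (bddAbove B)
  intro H ε hε
  obtain ⟨n, hn⟩ := exists_S' H
  refine ⟨_, invariant n ⟨0, 2 ^ (2 * n)⟩ H hn ε hε, ?_⟩
  rw [Finset.filter_true_of_mem, one_mul]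
  intro x hx
  obtain ⟨s, hs, rfl⟩ := Finset.mem_image.1 hx
  refine ⟨n, ?_, fun t ht => ?_⟩
  · unfold InBlock
    rw [mul_q, Nat.xor_assoc, Nat.xor_self, Nat.xor_zero]
    exact (mem_S.1 hs).1
  · rw [mul_f, (mem_S.1 hs).2 t ht]
    simp

/-- Q1 is false: there are an amenable group `G` and sets `A`, `B` of positive Banach density such
that `A B⁻¹` is not piecewise `⌊1 / (d(A) d(B))⌋`-syndetic. -/
theorem result : ∃ (G : Type) (_ : Group G), IsAmenable G ∧ ∃ A B : Set G,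
    0 < density A ∧ 0 < density B ∧
    ¬ IsPiecewiseSyndetic ⌊1 / (density A * density B)⌋₊ (mulInv A B) := by
  refine ⟨L, inferInstance, amenable, A, B, ?_, ?_, ?_⟩
  · linarith [density_A]
  · linarith [density_B]
  · apply not_pws
    have h1 := density_A
    have h2 := density_B
    have h3 : 2 / 3 ≤ density A * density B := by nlinarith
    have h4 : 1 / (density A * density B) < 2 := by
      rw [div_lt_iff₀ (by linarith)]
      linarith
    have h5 : ⌊1 / (density A * density B)⌋₊ < 2 := by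
      rw [Nat.floor_lt (by positivity)]
      exact_mod_cast h4
    omega

end Pool.Agent.Results.MP_b01501_co.PiecewiseSyndetic
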